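import Pool.Agent.H57.LH.Targets2

/-!
# Row HHG: homogeneity by back and forth
-/

set_option autoImplicit false

namespace Pool.Agent.H96.LH

open Pool.Agent.H68.BP Pool.Agent.H58.SF Pool.Agent.H53.GC Pool.Agent.H53.NR
open Pool.Agent.H53.GR (Dm Ps)
open Pool.Agent.H57.AR (tp ty tpo pullO Ty OT HomEq El ElD FamR Od GmR INJ lft)
open Pool.Agent.H57.SO (Pal Col vt Bh Sbn fib sigF)
open Pool.Agent.H57.EQ (Cx T_CYF)
open Pool.Agent.H57.LCI (LocalCompletions Pre Realizes)
open Pool.Agent.H44.KR (HB Amg Tyi Rz Rlz Clp LInj Prm TpOn RmL LcN Pl lr blk Fv kv RkI Kd JJ Yc IsTh Can Plf Pls)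
open Pool.Agent.H57.LH Function

section

variable {V : Type} {ρ : Sig} (𝔹 : Str ρ V)

/-- partial isomorphisms, as sets of pairs -/
structure PI (S : Set (V × V)) : Prop where
  eq : ∀ p ∈ S, ∀ q ∈ S, p.1 = q.1 ↔ p.2 = q.2
  rel : ∀ (l : Fin ρ.m) (z : Fin (ρ.ar l) → V × V), (∀ i, z i ∈ S) →
    (𝔹 l (fun i => (z i).1) ↔ 𝔹 l (fun i => (z i).2))

variable {𝔹}

theorem PI.swap {S : Set (V × V)} (h : PI 𝔹 S) : PI 𝔹 {p | (p.2, p.1) ∈ S} where
  eq := fun p hp q hq => (h.eq _ hp _ hq).symm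
  rel := fun l z hz => (h.rel l (fun i => ((z i).2, (z i).1)) hz).symm

theorem PI.range {W : Type} (x y : W → V) (h : tp 𝔹 y = tp 𝔹 x) :
    PI 𝔹 (Set.range fun a => (x a, y a)) where
  eq := by
    rintro _ ⟨a, rfl⟩ _ ⟨b, rfl⟩
    have h1 := congrFun (congrFun (congrArg Prod.fst h) a) b
    exact (iff_of_eq h1).symm
  rel := by
    intro l z hz
    choose c hc using hz
    have h1 := congrFun (congrFun (congrArg Prod.snd h) l) c
    have h2 : 𝔹 l (fun i => y (c i)) ↔ 𝔹 l (fun i => x (c i)) := iff_of_eq h1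
    have e1 : (fun i => (z i).1) = fun i => x (c i) := by
      funext i
      rw [← hc i]
    have e2 : (fun i => (z i).2) = fun i => y (c i) := by
      funext i
      rw [← hc i]
    rw [e1, e2]
    exact h2.symm

/-- forth -/
theorem PI.forth (hH : Hmg 𝔹) {S : Set (V × V)} (hS : S.Finite) (h : PI 𝔹 S) (v : V) :
    ∃ w, PI 𝔹 (insert (v, w) S) := by
  have hfin : Finite S := hS
  let x : Option S → V := fun a => match a with
    | none => v
    | some p => p.1.1
  let y : Option S → V := fun a => match a with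
    | none => v
    | some p => p.1.2
  have hT : TpOn 𝔹 (Set.range (some : S → Option S)) x y := by
    refine ⟨?_, ?_⟩
    · rintro _ ⟨a, rfl⟩ _ ⟨b, rfl⟩
      exact h.eq a.1 a.2 b.1 b.2
    · intro l z hz
      choose c hc using hz
      have h1 := h.rel l (fun i => (c i).1) fun i => (c i).2
      have e1 : (fun i => x (z i)) = fun i => (c i).1.1 := by
        funext i
        rw [← hc i]
      have e2 : (fun i => y (z i)) = fun i => (c i).1.2 := by
        funext i
        rw [← hc i]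
      rw [e1, e2]
      exact h1
  obtain ⟨x', h1, h2⟩ := hH (Option S) (Set.range (some : S → Option S)) x y hT
  refine ⟨x' none, ?_⟩
  have h3 := PI.range x x' h1
  have h4 : insert (v, x' none) S = Set.range fun a => (x a, x' a) := by
    ext q
    constructor
    · rintro (rfl | hq)
      · exact ⟨none, rfl⟩
      · refine ⟨some ⟨q, hq⟩, ?_⟩
        have h5 := h2 (some ⟨q, hq⟩) ⟨_, rfl⟩
        exact Prod.ext rfl h5
    · rintro ⟨a, rfl⟩
      cases a with
      | none => exact Or.inl rfl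
      | some p =>
        refine Or.inr ?_
        have h5 := h2 (some p) ⟨_, rfl⟩
        have h6 : ((x (some p), x' (some p)) : V × V) = p.1 := Prod.ext rfl h5
        show ((x (some p), x' (some p)) : V × V) ∈ S
        rw [h6]
        exact p.2
  rw [h4]
  exact h3

/-- back -/
theorem PI.back (hH : Hmg 𝔹) {S : Set (V × V)} (hS : S.Finite) (h : PI 𝔹 S) (v : V) :
    ∃ w, PI 𝔹 (insert (w, v) S) := by
  have h1 : {p : V × V | (p.2, p.1) ∈ S}.Finite := by
    have h2 : {p : V × V | (p.2, p.1) ∈ S} = Prod.swap '' S := by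
      ext p
      constructor
      · intro hp
        exact ⟨(p.2, p.1), hp, rfl⟩
      · rintro ⟨q, hq, rfl⟩
        exact hq
    rw [h2]
    exact hS.image _
  obtain ⟨w, hw⟩ := PI.forth hH h1 h.swap v
  refine ⟨w, ?_⟩
  have h2 := hw.swap
  have h3 : {p : V × V | (p.2, p.1) ∈ (insert (v, w) {p : V × V | (p.2, p.1) ∈ S} : Set (V × V))} =
      insert (w, v) S := by
    ext p
    constructor
    · rintro (hp | hp)
      · left
        have h4 := congrArg Prod.fst hp
        have h5 := congrArg Prod.snd hp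
        exact Prod.ext h5 h4
      · right
        exact hp
    · rintro (hp | hp)
      · left
        rw [hp]
      · right
        exact hp
  rw [h3] at h2
  exact h2

/-- one step -/
theorem PI.step (hH : Hmg 𝔹) {S : Set (V × V)} (hS : S.Finite) (h : PI 𝔹 S) (v : V) :
    ∃ S' : Set (V × V), (S'.Finite ∧ PI 𝔹 S') ∧ S ⊆ S' ∧ (∃ w, (v, w) ∈ S') ∧
      ∃ w, (w, v) ∈ S' := by
  obtain ⟨w, hw⟩ := PI.forth hH hS h v
  obtain ⟨u, hu⟩ := PI.back hH (hS.insert (v, w)) hw v
  refine ⟨insert (u, v) (insert (v, w) S), ⟨(hS.insert _).insert _, hu⟩, ?_, ⟨w, ?_⟩, ⟨u, ?_⟩⟩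
  · exact (Set.subset_insert _ _).trans (Set.subset_insert _ _)
  · exact Or.inr (Or.inl rfl)
  · exact Or.inl rfl

end

/-- **HHG.** -/
theorem pf_HHG : T_HHG := by
  intro V ρ 𝔹 hV hH F f hf
  rcases isEmpty_or_nonempty V with hE | hN
  · refine ⟨Equiv.refl V, fun l x => Iff.rfl, fun x => (hE.false x.1).elim⟩
  obtain ⟨en, hen⟩ := exists_surjective_nat V
  choose nx hnx1 hnx2 hnx3 hnx4 using fun (S : {S : Set (V × V) // S.Finite ∧ PI 𝔹 S}) (v : V) =>
    PI.step hH S.2.1 S.2.2 v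
  have h0 : (Set.range fun a : F => ((a : V), f a)).Finite ∧
      PI 𝔹 (Set.range fun a : F => ((a : V), f a)) := by
    refine ⟨Set.finite_range _, PI.range (fun a : F => (a : V)) f ?_⟩
    refine Prod.ext ?_ ?_
    · funext a b
      refine propext ⟨fun h => ?_, fun h => ?_⟩
      · have h1 : a = b := hf.1 h
        exact congrArg Subtype.val h1
      · have h1 : a = b := Subtype.ext h
        exact congrArg f h1
    · funext l z
      exact propext (hf.2 l z).symm
  let SS : ℕ → {S : Set (V × V) // S.Finite ∧ PI 𝔹 S} := fun n =>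
    Nat.rec ⟨_, h0⟩ (fun n S => ⟨nx S (en n), hnx1 S (en n)⟩) n
  have hmono : Monotone fun n => (SS n).1 :=
    monotone_nat_of_le_succ fun n => hnx2 (SS n) (en n)
  have hall : ∀ (m : ℕ) (z : Fin m → V × V), (∀ i, ∃ n, z i ∈ (SS n).1) →
      ∃ n, ∀ i, z i ∈ (SS n).1 := by
    intro m z hz
    choose c hc using hz
    refine ⟨Finset.univ.sup c, fun i => hmono (Finset.le_sup (Finset.mem_univ i)) (hc i)⟩
  have hT : PI 𝔹 {p | ∃ n, p ∈ (SS n).1} := by
    refine ⟨?_, ?_⟩
    · rintro p ⟨n, hp⟩ q ⟨n', hq⟩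
      exact (SS (max n n')).2.2.eq p (hmono (le_max_left n n') hp) q
        (hmono (le_max_right n n') hq)
    · intro l z hz
      obtain ⟨n, hn⟩ := hall _ z hz
      exact (SS n).2.2.rel l z hn
  have hfst : ∀ v, ∃ w, ∃ n, (v, w) ∈ (SS n).1 := by
    intro v
    obtain ⟨n, rfl⟩ := hen v
    obtain ⟨w, hw⟩ := hnx3 (SS n) (en n)
    exact ⟨w, n + 1, hw⟩
  have hsnd : ∀ v, ∃ w, ∃ n, (w, v) ∈ (SS n).1 := by
    intro v
    obtain ⟨n, rfl⟩ := hen v
    obtain ⟨w, hw⟩ := hnx4 (SS n) (en n)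
    exact ⟨w, n + 1, hw⟩
  choose g hg using hfst
  have hinj : Injective g := fun a b h => (hT.eq (a, g a) (hg a) (b, g b) (hg b)).2 h
  have hsur : Surjective g := by
    intro v
    obtain ⟨w, hw⟩ := hsnd v
    exact ⟨w, (hT.eq (w, g w) (hg w) (w, v) hw).1 rfl⟩
  refine ⟨Equiv.ofBijective g ⟨hinj, hsur⟩, ?_, ?_⟩
  · intro l x
    exact hT.rel l (fun i => (x i, g (x i))) fun i => hg (x i)
  · intro x
    have h1 : ((x : V), f x) ∈ {p | ∃ n, p ∈ (SS n).1} := ⟨0, x, rfl⟩
    exact (hT.eq ((x : V), g x) (hg x) ((x : V), f x) h1).1 rfl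

end Pool.Agent.H96.LH
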