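import Pool.Agent.H57.LH.Targets2

/-!
# Row RMV: the Ramsey property of `V`
-/

set_option autoImplicit false

namespace Pool.Agent.H96.LH

open Pool.Agent.H68.BP Pool.Agent.H58.SF Pool.Agent.H53.GC Pool.Agent.H53.NR
open Pool.Agent.H53.GR (Dm Ps)
open Pool.Agent.H57.AR (tp ty tpo pullO Ty OT HomEq El ElD FamR Od GmR INJ lft)
open Pool.Agent.H57.SO (Pal Col vt Bh Sbn fib sigF)
open Pool.Agent.H57.EQ (Cx T_CYF)
open Pool.Agent.H57.LCI (LocalCompletions Pre Realizes)
open Pool.Agent.H44.KR (HB Amg Tyi Rz Rlz Clp LInj Prm TpOn RmL LcN Pl lr blk Fv kv RkI Kd JJ Yc IsTh Can Plf Pls)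
open Pool.Agent.H57.LH Function

/-- the graded structure of the tuple `x` -/
def rmvC {V : Type} {ρ : Sig} (𝔹 : Str ρ V) (L n : ℕ) (x : Fin n → V) :
    Pool.Agent.H44.KR.GS ρ L (Fin n) where
  pl := fun _ => Sum.inl 0
  gd := fun _ => True
  st := pull 𝔹 x

open Classical in
/-- **RMV.** -/
theorem pf_RMV : T_RMV := by
  intro V ρ 𝔹 L hB hR n k Y hY x hx
  rcases Nat.eq_zero_or_pos n with rfl | hn
  · refine ⟨0, fun a => a.elim0, fun χ => ⟨fun a => a, ?_, ?_⟩⟩
    · exact congrArg (tp 𝔹) (funext fun a => a.elim0)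
    · intro a a' _ _
      have h : a = a' := funext fun b => (a b).elim0
      rw [h]
  · have hne : Nonempty (Fin n) := ⟨⟨0, hn⟩⟩
    have hG : Pool.Agent.H44.KR.Good 𝔹 (rmvC 𝔹 L n x) := by
      refine ⟨fun _ _ _ _ => trivial, ?_, ?_⟩
      · intro g _ a _ b _
        show Pool.Agent.H53.GM.Adj (none : Pool.Agent.H53.GM.Rg L) none
        unfold Pool.Agent.H53.GM.Adj
        simp
      · intro Z
        refine ⟨x, fun g _ => ⟨fun a _ b _ h => hx h, fun l z _ => Iff.rfl⟩⟩
    obtain ⟨X', hX', C', hG', hF⟩ := hR (Fin n) (Fin k) Y (rmvC 𝔹 L n x) Fin.val hG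
      (fun _ => trivial) Fin.val_injective
    have hfin : Finite X' := hX'
    let eqv : X' ≃ Fin (Nat.card X') := Finite.equivFin X'
    obtain ⟨fR, hfR⟩ := hG'.rz (Sum.inl 0)
    refine ⟨Nat.card X', fun a => fR (eqv.symm a), fun χ => ?_⟩
    obtain ⟨φ, hφ, hφ2⟩ := hF fun a => χ fun j => eqv (a j)
    have hgd := hφ.gd Finset.univ trivial
    have hRz := hfR _ hgd
    have hmem : ∀ a, φ a ∈ {y | y ∈ Finset.univ.image φ ∧
        Pool.Agent.H44.KR.inSh (Sum.inl 0) (C'.pl y)} := by
      intro a
      refine ⟨Finset.mem_image.2 ⟨a, Finset.mem_univ a, rfl⟩, ?_⟩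
      rw [hφ.pl a]
      exact (rfl : (0 : Fin 6) = 0)
    refine ⟨fun a => eqv (φ a), ?_, ?_⟩
    · have h1 : (fun a => fR (eqv.symm (eqv (φ a)))) = fun a => fR (φ a) := by
        funext a
        rw [Equiv.symm_apply_apply]
      rw [h1]
      refine Prod.ext ?_ ?_
      · funext a b
        refine propext ⟨fun h => ?_, fun h => ?_⟩
        · have h2 := hRz.1 (φ a) (hmem a) (φ b) (hmem b) h
          have h3 := hφ.inj Finset.univ trivial a (Finset.mem_univ a) b (Finset.mem_univ b) h2
          exact congrArg x h3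
        · have h2 : a = b := hx h
          exact congrArg (fun a => fR (φ a)) h2
      · funext l z
        refine propext ?_
        have h2 := hRz.2 l (fun i => φ (z i)) fun i => hmem (z i)
        have h3 := hφ.st Finset.univ trivial l z (fun i => Finset.mem_univ _)
          ⟨Sum.inl 0, fun i => (rfl : (0 : Fin 6) = 0)⟩
        exact h2.trans h3
    · intro a a' h1 h2
      refine hφ2 a a' ⟨Finset.univ, trivial, fun j => Finset.mem_univ _⟩
        ⟨Finset.univ, trivial, fun j => Finset.mem_univ _⟩ ?_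
      refine Prod.ext rfl (Prod.ext ?_ (Prod.ext ?_ ?_))
      · funext i j
        refine propext ?_
        have h3 := h2 i j
        have h4 := h2 j i
        constructor
        · intro h
          refine le_antisymm (not_lt.1 fun h5 => ?_) (not_lt.1 fun h5 => ?_)
          · exact absurd h (h4.2 h5).ne'
          · exact absurd h (h3.2 h5).ne
        · intro h
          refine le_antisymm (not_lt.1 fun h5 => ?_) (not_lt.1 fun h5 => ?_)
          · exact absurd h (h4.1 h5).ne'
          · exact absurd h (h3.1 h5).ne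
      · funext i j
        refine propext ?_
        exact and_congr_right fun _ => h2 i j
      · funext l z
        refine propext ?_
        refine and_congr_right fun _ => ?_
        exact iff_of_eq (congrFun (congrFun h1 l) z)

end Pool.Agent.H96.LH
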